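import Pool.Agent.Helper4.CI.Goals
import Pool.Agent.Helper20.Mono.Crd

/-!
# Relations between the two fans
-/

namespace Mono.CI.R3

open Finset Mono Mono.CI

variable {N k : ℕ}

theorem lift_nat (c : Option (Fin k)) (u : Fin N → ℤ) (j : Fin k) :
    lift c u (Fin.natAdd N j) = ind c j := by
  simp [lift]

theorem lift_cast (c : Option (Fin k)) (u : Fin N → ℤ) (i : Fin N) :
    lift c u (Fin.castAdd k i) = u i := by
  simp [lift]

theorem ind_none : ind (none : Option (Fin k)) = 0 := by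
  funext j; simp [ind]

theorem ind_some (j : Fin k) : ind (some j) j = 1 := by simp [ind]

theorem lift_smul (L : ℤ) (u : Fin N → ℤ) :
    lift (none : Option (Fin k)) (L • u) = L • lift none u := by
  funext m
  refine Fin.addCases (fun i => ?_) (fun j => ?_) m
  · rw [lift_cast, Pi.smul_apply, Pi.smul_apply, lift_cast]
  · rw [lift_nat, Pi.smul_apply, lift_nat, ind_none]; simp

theorem toR_up {n : ℕ} (L : ℕ) (H : Finset (Fin n → ℤ)) (u : Fin n → ℤ) :
    toR (up L H u) = (if u ∈ H then (1 : ℝ) else (L : ℝ)) • toR u := by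
  unfold up
  split_ifs
  · rw [one_smul]
  · funext i; simp

theorem mem_cay {φ : Option (Fin k) → Finset (Fin N → ℤ)} {C : Finset (Option (Fin k))}
    {u : Fin (N + k) → ℤ} : u ∈ cay φ C ↔ ∃ c ∈ C, ∃ v ∈ φ c, lift c v = u := by
  simp only [cay, mem_biUnion, mem_image]

theorem mem_scay {φ : Option (Fin k) → Finset (Fin N → ℤ)} {L : ℕ} {u : Fin (N + k) → ℤ} :
    u ∈ scay φ L ↔ (∃ v ∈ φ none, lift none ((L : ℤ) • v) = u) ∨
      ∃ j, ∃ v ∈ φ (some j), lift (some j) v = u := by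
  simp only [scay, mem_union, mem_biUnion, mem_image, mem_univ, true_and]

theorem mem_H {A : Option (Fin k) → Finset (Fin N → ℤ)} {Z : Finset (Fin (N + k) → ℤ)}
    {u : Fin (N + k) → ℤ} : u ∈ Hset A Z ↔ u ∈ Z ∨ ∃ j, ∃ v ∈ A (some j), lift (some j) v = u := by
  simp only [Hset, mem_union, mem_biUnion, mem_image, mem_univ, true_and]

theorem scaleRel : ScaleRel := by
  intro N k A b L b' Z Φ' Φ T
  have hL : 2 ≤ L := T.two_le
  obtain ⟨-, -, -, hdis, hvert', ⟨hZs, hZ, -⟩, -⟩ := T.tri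
  have h5 : Disjoint (cay A univ) Z := by
    rw [Finset.disjoint_left]
    intro u hu hz
    obtain ⟨c, -, v, hv, rfl⟩ := mem_cay.1 hu
    cases c with
    | none => exact T.notZ v hv hz
    | some j => exact Finset.disjoint_left.1 hdis (mem_scay.2 (Or.inr ⟨j, v, hv, rfl⟩)) hz
  have h6 : ∀ u ∈ cay A univ, (u ∉ Hset A Z ↔ ∀ j, u (Fin.natAdd N j) = 0) := by
    intro u hu
    obtain ⟨c, -, v, hv, rfl⟩ := mem_cay.1 hu
    cases c with
    | none =>
      constructor
      · intro _ j; rw [lift_nat, ind_none]; rfl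
      · intro _ hH
        rcases mem_H.1 hH with hz | ⟨j, w, -, hw⟩
        · exact T.notZ v hv hz
        · have := congrFun hw (Fin.natAdd N j)
          rw [lift_nat, lift_nat, ind_some, ind_none] at this
          exact one_ne_zero this
    | some j =>
      constructor
      · intro hH; exact absurd (mem_H.2 (Or.inr ⟨j, v, hv, rfl⟩)) hH
      · intro h0
        have := h0 j
        rw [lift_nat, ind_some] at this
        exact absurd this one_ne_zero
  have h4' : ∀ u ∉ Hset A Z, (L : ℤ) • u ∉ Z := by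
    intro u _ hz
    obtain ⟨m, hm⟩ := hZ _ hz
    have h1 := congrFun hm m
    rw [Pi.smul_apply, Pi.single_eq_same, smul_eq_mul] at h1
    have h2 : (L : ℤ) ∣ 1 := ⟨u m, h1.symm⟩
    have h3 := Int.le_of_dvd one_pos h2
    omega
  have h4 : ∀ u ∈ Φ.vert, up L (Hset A Z) u ∈ Z ↔ u ∈ Z := by
    intro u _
    unfold up
    split_ifs with h
    · exact Iff.rfl
    · exact ⟨fun hz => absurd hz (h4' u h), fun hz => absurd (mem_H.2 (Or.inl hz)) h⟩
  have hvcase : ∀ v ∈ Φ.vert, v ∉ Hset A Z → v ∈ cay A univ ∧ ∀ j, v (Fin.natAdd N j) = 0 := by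
    intro v hv hH
    rw [T.vert, mem_union] at hv
    rcases hv with hv | hv
    · exact ⟨hv, (h6 v hv).1 hH⟩
    · exact absurd (mem_H.2 (Or.inl hv)) hH
  have hmix : ∀ u ∈ Hset A Z, ∀ v ∈ Φ.vert, v ∉ Hset A Z → u ≠ (L : ℤ) • v := by
    intro u hu v hv hvH he
    rcases mem_H.1 hu with hz | ⟨j, w, -, hw⟩
    · exact h4' v hvH (he ▸ hz)
    · have h1 := congrFun he (Fin.natAdd N j)
      rw [← hw, lift_nat, ind_some, Pi.smul_apply, (hvcase v hv hvH).2 j, smul_zero] at h1
      exact one_ne_zero h1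
  have h1 : ∀ u ∈ Φ.vert, ∀ v ∈ Φ.vert, up L (Hset A Z) u = up L (Hset A Z) v → u = v := by
    intro u hu v hv he
    unfold up at he
    split_ifs at he with a1 a2 a2
    · exact he
    · exact absurd he (hmix u a1 v hv a2)
    · exact absurd he.symm (hmix v a2 u hu a1)
    · funext m
      have := congrFun he m
      rw [Pi.smul_apply, Pi.smul_apply, smul_eq_mul, smul_eq_mul] at this
      exact mul_left_cancel₀ (by exact_mod_cast (by omega : L ≠ 0)) this
  have h2 : Φ.vert.image (up L (Hset A Z)) = Φ'.vert := by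
    rw [hvert']
    ext x
    rw [mem_image, mem_union, mem_scay]
    constructor
    · rintro ⟨u, hu, rfl⟩
      by_cases hH : u ∈ Hset A Z
      · unfold up; rw [if_pos hH]
        rcases mem_H.1 hH with hz | h
        · exact Or.inr hz
        · exact Or.inl (Or.inr h)
      · obtain ⟨hc, h0⟩ := hvcase u hu hH
        obtain ⟨c, -, v, hv, rfl⟩ := mem_cay.1 hc
        unfold up; rw [if_neg hH]
        cases c with
        | none => exact Or.inl (Or.inl ⟨v, hv, lift_smul _ _⟩)
        | some j => exact absurd (mem_H.2 (Or.inr ⟨j, v, hv, rfl⟩)) hH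
    · rintro ((⟨v, hv, rfl⟩ | ⟨j, v, hv, rfl⟩) | hz)
      · have hc : lift none v ∈ cay A univ := mem_cay.2 ⟨none, mem_univ _, v, hv, rfl⟩
        refine ⟨lift none v, by rw [T.vert]; exact mem_union_left _ hc, ?_⟩
        unfold up
        rw [if_neg ((h6 _ hc).2 fun j => by rw [lift_nat, ind_none]; rfl), lift_smul]
      · have hc : lift (some j) v ∈ cay A univ := mem_cay.2 ⟨some j, mem_univ _, v, hv, rfl⟩
        refine ⟨lift (some j) v, by rw [T.vert]; exact mem_union_left _ hc, ?_⟩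
        unfold up
        rw [if_pos (mem_H.2 (Or.inr ⟨j, v, hv, rfl⟩))]
      · refine ⟨x, by rw [T.vert]; exact mem_union_right _ hz, ?_⟩
        unfold up
        rw [if_pos (mem_H.2 (Or.inl hz))]
  have h3 : Φ'.vert \ Z = scay A L := by
    rw [hvert', union_sdiff_right, sdiff_eq_self_of_disjoint hdis]
  have h7 : ∀ F ∈ Φ.mx, F.image (up L (Hset A Z)) ∈ Φ'.mx := by
    intro F hF
    rw [T.mx, mem_filter] at hF
    exact hF.2
  have h8 : ∀ F' ∈ Φ'.mx, ∃ F ∈ Φ.mx, F.image (up L (Hset A Z)) = F' := by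
    intro F' hF'
    have he : (Φ.vert.filter (fun u => up L (Hset A Z) u ∈ F')).image (up L (Hset A Z)) = F' := by
      ext x
      rw [mem_image]
      constructor
      · rintro ⟨u, hu, rfl⟩
        exact (mem_filter.1 hu).2
      · intro hx
        have := Φ'.mx_sub F' hF' hx
        rw [← h2, mem_image] at this
        obtain ⟨u, hu, rfl⟩ := this
        exact ⟨u, mem_filter.2 ⟨hu, hx⟩, rfl⟩
    refine ⟨_, ?_, he⟩
    rw [T.mx, mem_filter, mem_powerset]
    exact ⟨filter_subset _ _, by rw [he]; exact hF'⟩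
  have h9 : ∀ τ ⊆ Φ.vert, τ ∈ Φ.faces ↔ τ.image (up L (Hset A Z)) ∈ Φ'.faces := by
    intro τ hτ
    rw [Fan.mem_faces, Fan.mem_faces]
    constructor
    · rintro ⟨F, hF, hs⟩
      exact ⟨_, h7 F hF, image_subset_image hs⟩
    · rintro ⟨F', hF', hs⟩
      obtain ⟨F, hF, rfl⟩ := h8 F' hF'
      refine ⟨F, hF, fun u hu => ?_⟩
      obtain ⟨v, hv, he⟩ := mem_image.1 (hs (mem_image_of_mem _ hu))
      rw [← h1 v (Φ.mx_sub F hF hv) u (hτ hu) he]
      exact hv
  have h10 : ∀ F ∈ Φ.mx, ∀ x : Fin (N + k) → ℝ, ∀ u ∈ F, crd F x u =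
      (if u ∈ Hset A Z then 1 else (L : ℝ)) *
        crd (F.image (up L (Hset A Z))) x (up L (Hset A Z) u) := by
    intro F hF x u hu
    refine crd_eq (Φ.mx_indep F hF) (c := fun u => (if u ∈ Hset A Z then 1 else (L : ℝ)) *
        crd (F.image (up L (Hset A Z))) x (up L (Hset A Z) u)) ?_ hu
    have hs := sum_crd (Φ'.mx_indep _ (h7 F hF)) (Φ'.mx_card _ (h7 F hF)) x
    rw [Finset.sum_image] at hs
    · conv_lhs => rw [← hs]
      refine Finset.sum_congr rfl fun v _ => ?_
      rw [toR_up, smul_smul, mul_comm]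
    · intro a ha c hc he
      exact h1 a (Φ.mx_sub F hF ha) c (Φ.mx_sub F hF hc) he
  refine ⟨h1, h2, h3, h4, h5, h6, h7, h8, h9, h10, ?_⟩
  intro w
  have hl : ∀ u, (if u ∈ Hset A Z then 1 else (L : ℝ)) ≠ 0 := by
    intro u
    split_ifs
    · exact one_ne_zero
    · exact_mod_cast (by omega : L ≠ 0)
  constructor
  · rintro ⟨hg, hw⟩
    refine ⟨fun F' hF' u' hu' => ?_, hw⟩
    obtain ⟨F, hF, rfl⟩ := h8 F' hF'
    obtain ⟨u, hu, rfl⟩ := mem_image.1 hu'
    have := hg F hF u hu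
    rw [h10 F hF w u hu] at this
    exact right_ne_zero_of_mul this
  · rintro ⟨hg, hw⟩
    refine ⟨fun F hF u hu => ?_, hw⟩
    rw [h10 F hF w u hu]
    exact mul_ne_zero (hl u) (hg _ (h7 F hF) _ (mem_image_of_mem _ hu))

end Mono.CI.R3
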